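import Mathlib
import Pool.Agent.R352.E.Gz

set_option autoImplicit false

/-!
# Euler's constant and the values of the Gompertz function at positive rational numbers

For a positive rational number `x` let `δ(x) = ∫_0^∞ e^(-s) / (x + s) ds`.

(1) Let `y_1, …, y_r` be real numbers and `P` a set of positive rational numbers `x` for which
`γ + log x` is algebraic over `ℚ(e, y_1, …, y_r)`. For every finite `S ⊆ P` the field
`ℚ(e, y_1, …, y_r, δ(x) : x ∈ S)` has transcendence degree at least `|S| + 1`.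

(2) Let `G` be the multiplicative group generated by positive rational numbers `b_1, …, b_m`. At most
`m + 1` of the numbers `γ, log b_1, …, log b_m` and `δ(x)` (`x ∈ G`) are algebraic over `ℚ(e)`.

(3) Suppose that `γ` is algebraic over `ℚ(e)`, and let `X` be a set of positive rational numbers `x`
for which `δ(x)` is algebraic over `ℚ(e)`. Then the numbers `e` and `log x` (`x ∈ X`) are
algebraically independent over `ℚ`; in particular `X` is multiplicatively independent, and
`δ(n)` is transcendental over `ℚ(e)` for all but at most `π(N)` of the integers `1 ≤ n ≤ N`.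
-/

namespace Pool.Agent.Results.MP_e48a95_nt.GompertzFunction

open Set

/-- `δ(x) = ∫_0^∞ e^(-s) / (x + s) ds` -/
noncomputable def delta (x : ℚ) : ℝ := ∫ s in Ioi (0 : ℝ), Real.exp (-s) / ((x : ℝ) + s)

/-- `x` is algebraic over `ℚ(e, y_1, …, y_r)` -/
def AlgebraicOverEAnd {r : ℕ} (y : Fin r → ℝ) (x : ℝ) : Prop :=
  IsAlgebraic (IntermediateField.adjoin ℚ ({Real.exp 1} ∪ range y)) x

/-- `x` is algebraic over `ℚ(e)` -/
def AlgebraicOverE (x : ℝ) : Prop := IsAlgebraic (IntermediateField.adjoin ℚ {Real.exp 1}) x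

/-- the multiplicative group generated by `b_1, …, b_m` -/
def group {m : ℕ} (b : Fin m → ℚ) : Set ℚ := {x | ∃ n : Fin m → ℤ, x = ∏ i, b i ^ n i}

/-- the numbers `γ, log b_1, …, log b_m` -/
noncomputable def logs {m : ℕ} (b : Fin m → ℚ) : Fin (m + 1) → ℝ :=
  Fin.cons Real.eulerMascheroniConstant fun i => Real.log (b i)

/-- the set of indices of those of the numbers `y_1, …, y_r` and `δ(x)` (`x ∈ P`) which are
algebraic over `ℚ(e)` -/
def algebraicIndices {r : ℕ} (y : Fin r → ℝ) (P : Set ℚ) : Set (Fin r ⊕ ℚ) :=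
  {i | Sum.elim (fun j => AlgebraicOverE (y j)) (fun x => x ∈ P ∧ AlgebraicOverE (delta x)) i}

theorem main {r : ℕ} (y : Fin r → ℝ) (P : Set ℚ)
    (hP : ∀ x ∈ P, 0 < x ∧ AlgebraicOverEAnd y (Real.eulerMascheroniConstant + Real.log x)) :
    (algebraicIndices y P).encard ≤ (r : ℕ∞) := by
  classical
  refine Pool.Agent.R352.E.encard_le_of_finset _ _ fun t ht => ?_
  let f : Fin r ⊕ ℚ → Fin 0 ⊕ Fin r ⊕ (Fin 1 × ℚ) := fun i => Sum.inr (Sum.map id (fun x => (0, x)) i)
  have hf : Function.Injective f := by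
    intro i j h
    simp only [f, Sum.inr.injEq] at h
    refine Function.Injective.sumMap Function.injective_id ?_ h
    intro a b hab
    exact (Prod.mk.inj hab).2
  have h := Pool.Agent.R352.E.count_one y (t.map ⟨f, hf⟩) ?_ ?_
  · rw [Finset.card_map] at h
    omega
  · intro i hi
    obtain ⟨j, hj, rfl⟩ := Finset.mem_map.1 hi
    have h1 := ht hj
    cases j with
    | inl j => exact Pool.Agent.R352.E.mem_clF.2 h1
    | inr x =>
      have h2 := hP x h1.1
      have h3 : (0 : ℝ) < x := by exact_mod_cast h2.1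
      have h4 := Pool.Agent.R352.E.dl_one h3
      have h5 : Pool.Agent.R352.E.gval 1 (Fin.elim0 : Fin 0 → ℝ) y (f (Sum.inr x)) = Pool.Agent.R352.E.dl 1 x := by
        simp [f, Pool.Agent.R352.E.gval]
      rw [Function.Embedding.coeFn_mk, h5, h4]
      exact Pool.Agent.R352.E.mem_clF.2 h1.2
  · intro p hp
    obtain ⟨j, hj, hjp⟩ := Finset.mem_map.1 hp
    cases j with
    | inl j => simp [f] at hjp
    | inr x =>
      have h0 : x = p.2 := by
        have h6 : ((0 : Fin 1), x) = p := by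
          simpa [f] using hjp
        rw [← h6]
      subst h0
      have h2 := hP p.2 (ht hj).1
      exact ⟨h2.1, Pool.Agent.R352.E.mem_clF.2 h2.2⟩

theorem group_pos {m : ℕ} {b : Fin m → ℚ} (hb : ∀ i, 0 < b i) {x : ℚ} (hx : x ∈ group b) : 0 < x := by
  obtain ⟨n, rfl⟩ := hx
  exact Finset.prod_pos fun i _ => zpow_pos (hb i) _

theorem group_log {m : ℕ} {b : Fin m → ℚ} (hb : ∀ i, 0 < b i) {x : ℚ} (hx : x ∈ group b) :
    AlgebraicOverEAnd (logs b) (Real.eulerMascheroniConstant + Real.log x) := by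
  obtain ⟨n, rfl⟩ := hx
  have h1 : Real.log ((∏ i, b i ^ n i : ℚ) : ℝ) = ∑ i, (n i : ℝ) * Real.log (b i) := by
    push_cast
    rw [Real.log_prod]
    · refine Finset.sum_congr rfl fun i _ => ?_
      rw [Real.log_zpow]
    · intro i _
      have : (b i : ℝ) ≠ 0 := by exact_mod_cast (hb i).ne'
      exact zpow_ne_zero _ this
  refine Pool.Agent.R352.E.mem_clF.1 ?_
  rw [h1]
  have h2 : ∀ i, logs b i ∈ Pool.Agent.R352.E.clF ({Real.exp 1} ∪ range (logs b)) := fun i =>
    Pool.Agent.R352.E.subset_clF _ (Or.inr ⟨i, rfl⟩)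
  refine Subfield.add_mem _ (h2 0) (Subfield.sum_mem _ fun i _ => Subfield.mul_mem _ (intCast_mem _ _) ?_)
  exact h2 i.succ

/-- the case where `γ` is algebraic over `ℚ(e)` -/
theorem euler_algebraic (hγ : AlgebraicOverE Real.eulerMascheroniConstant) (X : Set ℚ)
    (hX : ∀ x ∈ X, 0 < x ∧ AlgebraicOverE (delta x)) :
    AlgebraicIndependent ℚ (fun o : Option X => o.elim (Real.exp 1) fun x => Real.log (x : ℚ)) := by
  refine Pool.Agent.R352.E.ai_gz X (fun x hx => ⟨(hX x hx).1, Pool.Agent.R352.E.mem_clF.2 (hX x hx).2⟩) _ fun x => ?_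
  refine Subfield.add_mem _ ?_ (Pool.Agent.R352.E.subset_clF _ (Or.inr rfl))
  exact Pool.Agent.R352.E.clF_mono (singleton_subset_iff.2 (Or.inl rfl)) (Pool.Agent.R352.E.mem_clF.2 hγ)

theorem mult_indep {X : Set ℚ} (hX : ∀ x ∈ X, 0 < x)
    (hAI : AlgebraicIndependent ℚ (fun o : Option X => o.elim (Real.exp 1) fun x => Real.log (x : ℚ)))
    (n : X →₀ ℤ) (h1 : n.prod (fun x m => (x : ℚ) ^ m) = 1) : n = 0 := by
  have hLI : LinearIndependent ℚ (fun x : X => Real.log (x : ℚ)) :=
    (hAI.comp some (Option.some_injective _)).linearIndependent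
  have e2 : ∑ x ∈ n.support, (n x : ℝ) * Real.log (x : ℚ) = 0 := by
    have h3 : Real.log ((n.prod (fun x m => (x : ℚ) ^ m) : ℚ) : ℝ) = ∑ x ∈ n.support, (n x : ℝ) * Real.log (x : ℚ) := by
      rw [Finsupp.prod]
      push_cast
      rw [Real.log_prod]
      · refine Finset.sum_congr rfl fun x _ => ?_
        rw [Real.log_zpow]
      · intro x _
        have : ((x : ℚ) : ℝ) ≠ 0 := by exact_mod_cast (hX x x.2).ne'
        exact zpow_ne_zero _ this
    rw [← h3, h1]
    simp
  have h4 := (linearIndependent_iff'.1 hLI) n.support (fun x => (n x : ℚ)) (by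
    rw [← e2]
    refine Finset.sum_congr rfl fun x _ => ?_
    rw [Rat.smul_def]
    push_cast
    rfl)
  ext x
  by_cases hx : x ∈ n.support
  · have := h4 x hx
    exact_mod_cast this
  · simpa using hx

theorem count {X : Set ℚ}
    (hAI : AlgebraicIndependent ℚ (fun o : Option X => o.elim (Real.exp 1) fun x => Real.log (x : ℚ)))
    (N : ℕ) (S : Finset ℕ) (hS : ∀ n ∈ S, 1 ≤ n ∧ n ≤ N ∧ (n : ℚ) ∈ X) : S.card ≤ Nat.primeCounting N := by
  classical
  let P : Finset ℕ := (Finset.range (N + 1)).filter Nat.Prime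
  have hP : P.card = Nat.primeCounting N := by
    rw [Nat.primeCounting, Nat.primeCounting', Nat.count_eq_card_filter_range]
  have h1 : AlgebraicIndependent ℚ (fun n : S => Real.log (n : ℕ)) := by
    have := hAI.comp (fun n : S => some (⟨(n : ℕ), (hS n n.2).2.2⟩ : X)) (by
      intro a b hab
      simp only [Option.some.injEq, Subtype.mk.injEq, Nat.cast_inj] at hab
      exact Subtype.ext hab)
    convert this using 2
    simp
  have h2 := Pool.Agent.R352.E.card_le_card h1 (y := fun p : P => Real.log (p : ℕ)) ?_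
  · simp only [Fintype.card_coe, hP] at h2
    exact h2
  · intro n
    obtain ⟨h3, h4, -⟩ := hS n n.2
    have h5 : Real.log (n : ℕ) = ∑ p ∈ (n : ℕ).primeFactors, ((n : ℕ).factorization p : ℝ) * Real.log p := by
      conv_lhs => rw [← Nat.prod_factorization_pow_eq_self (show (n : ℕ) ≠ 0 by omega)]
      rw [Finsupp.prod, Nat.support_factorization]
      push_cast
      rw [Real.log_prod]
      · refine Finset.sum_congr rfl fun p _ => ?_
        rw [Real.log_pow]
      · intro p hp
        have := (Nat.prime_of_mem_primeFactors hp).pos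
        positivity
    rw [h5]
    refine Subfield.sum_mem _ fun p hp => Subfield.mul_mem _ (natCast_mem _ _)
      (Pool.Agent.R352.E.subset_clF _ ⟨⟨p, ?_⟩, rfl⟩)
    refine Finset.mem_filter.2 ⟨Finset.mem_range.2 ?_, Nat.prime_of_mem_primeFactors hp⟩
    have := Nat.le_of_dvd (by omega) (Nat.dvd_of_mem_primeFactors hp)
    omega

theorem result :
    -- (1)
    (∀ (r : ℕ) (y : Fin r → ℝ) (P : Set ℚ),
      (∀ x ∈ P, 0 < x ∧ AlgebraicOverEAnd y (Real.eulerMascheroniConstant + Real.log x)) →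
      ∀ S : Finset ℚ, (∀ x ∈ S, x ∈ P) →
        ((S.card + 1 : ℕ) : Cardinal) ≤ Algebra.trdeg ℚ (IntermediateField.adjoin ℚ
          ({Real.exp 1} ∪ range y ∪ delta '' (S : Set ℚ)))) ∧
    -- (2)
    (∀ (m : ℕ) (b : Fin m → ℚ), (∀ i, 0 < b i) →
      (algebraicIndices (logs b) (group b)).encard ≤ ((m + 1 : ℕ) : ℕ∞)) ∧
    -- (3)
    (AlgebraicOverE Real.eulerMascheroniConstant →
      ∀ X : Set ℚ, (∀ x ∈ X, 0 < x ∧ AlgebraicOverE (delta x)) →
        AlgebraicIndependent ℚ (fun o : Option X => o.elim (Real.exp 1) fun x => Real.log (x : ℚ)) ∧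
        (∀ n : X →₀ ℤ, n.prod (fun x m => (x : ℚ) ^ m) = 1 → n = 0) ∧
        ∀ N : ℕ, {n : ℕ | 1 ≤ n ∧ n ≤ N ∧ AlgebraicOverE (delta n)}.encard ≤ (Nat.primeCounting N : ℕ∞)) := by
  refine ⟨fun r y P hP S hS => ?_, fun m b hb => ?_, fun hγ X hX => ⟨euler_algebraic hγ X hX, ?_, fun N => ?_⟩⟩
  · exact Pool.Agent.R352.E.trdeg_one y S fun x hx =>
      ⟨(hP x (hS x hx)).1, Pool.Agent.R352.E.mem_clF.2 (hP x (hS x hx)).2⟩
  · exact main (logs b) (group b) fun x hx => ⟨group_pos hb hx, group_log hb hx⟩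
  · exact fun n hn => mult_indep (fun x hx => (hX x hx).1) (euler_algebraic hγ X hX) n hn
  · refine Pool.Agent.R352.E.encard_le_of_finset _ _ fun t ht => ?_
    have h := euler_algebraic hγ {x : ℚ | 0 < x ∧ AlgebraicOverE (delta x)} fun x hx => hx
    refine count h N t fun n hn => ?_
    obtain ⟨h1, h2, h3⟩ := ht hn
    refine ⟨h1, h2, ?_, h3⟩
    exact_mod_cast h1

end Pool.Agent.Results.MP_e48a95_nt.GompertzFunction
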