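import Mathlib
import Pool.Agent.R352.T.Count2

set_option autoImplicit false

/-!
# `ζ(3)`, `ζ(3) / π³`, Euler's constant and half-integral Gompertz numbers over the field `ℚ(e)`

For an integer `l ≥ 0` and a positive rational number `x` let
`Λ_l(x) = ∫_0^∞ log (1 + 4s / x)^l (1 + 4s / x)^(-1/2) e^(-s) ds`.

(1) Let `y_1, …, y_r` be real numbers and `P` a set of positive rational numbers `x` for which
`γ + log x` is algebraic over `ℚ(e, y_1, …, y_r)`. For every `c ≥ 0` and every finite set `S` of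
pairs `(l, x)`, `0 ≤ l ≤ 2c + 4`, `x ∈ P`, the field
`ℚ(e, y_1, …, y_r, ζ(3), ζ(3) / π³, ζ(5), ζ(7), …, ζ(2c + 3), Λ_l(x) : (l, x) ∈ S)` has
transcendence degree at least `|S| + 1`.

(2) In the situation of (1) at most `r + c + 2` of the numbers
`ζ(3), ζ(3) / π³, ζ(5), …, ζ(2c + 3), y_1, …, y_r` and `Λ_l(x)` (`0 ≤ l ≤ 2c + 4`, `x ∈ P`) are
algebraic over `ℚ(e)`.

(3) Let `G` be the multiplicative group generated by positive rational numbers `b_1, …, b_m`. For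
every `c ≥ 0` at most `m + c + 3` of the numbers
`ζ(3), ζ(3) / π³, ζ(5), …, ζ(2c + 3), γ, log b_1, …, log b_m` and `Λ_l(x)` (`0 ≤ l ≤ 2c + 4`, `x ∈ G`)
are algebraic over `ℚ(e)`.

(4) In the situation of (3) at most `m + 2` of the numbers `π, γ, log b_1, …, log b_m` and
`Λ_0(x), Λ_1(x), Λ_2(x)` (`x ∈ G`) are algebraic over `ℚ(e)`.

In (2), (3) and (4) numbers of different names are counted separately.
-/

namespace Pool.Agent.Results.MP_e48a95_nt.HalfGompertzNumbers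

open Set

/-- the zeta value `ζ(s) = ∑ 1 / n^s` -/
noncomputable def zeta (s : ℕ) : ℝ := ∑' n : ℕ, 1 / ((n : ℝ) + 1) ^ s

/-- `Λ_l(x) = ∫_0^∞ log (1 + 4s / x)^l (1 + 4s / x)^(-1/2) e^(-s) ds` -/
noncomputable def Lambda (l : ℕ) (x : ℚ) : ℝ :=
  ∫ s in Ioi (0 : ℝ), Real.log (1 + 4 * s / (x : ℝ)) ^ l * (1 + 4 * s / (x : ℝ)) ^ (-1 / 2 : ℝ) * Real.exp (-s)

/-- `x` is algebraic over `ℚ(e, y_1, …, y_r)` -/
def AlgebraicOverEAnd {r : ℕ} (y : Fin r → ℝ) (x : ℝ) : Prop :=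
  IsAlgebraic (IntermediateField.adjoin ℚ ({Real.exp 1} ∪ range y)) x

/-- `x` is algebraic over `ℚ(e)` -/
def AlgebraicOverE (x : ℝ) : Prop := IsAlgebraic (IntermediateField.adjoin ℚ {Real.exp 1}) x

/-- the numbers `ζ(3), ζ(3) / π³, ζ(5), ζ(7), …, ζ(2c + 3)` -/
noncomputable def zetas (c : ℕ) : Fin (c + 2) → ℝ :=
  Fin.cons (zeta 3) (Fin.cons (zeta 3 / Real.pi ^ 3) fun i : Fin c => zeta (2 * i + 5))

/-- the names, among those of the numbers `k_i` (`i ∈ κ`), `y_1, …, y_r` and `Λ_l(x)` (`0 ≤ l < L`, `x ∈ P`), of the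
numbers algebraic over `ℚ(e)` -/
def algebraicNames {κ : Type} (k : κ → ℝ) {r : ℕ} (y : Fin r → ℝ) (L : ℕ) (P : Set ℚ) :
    Set (κ ⊕ Fin r ⊕ (Fin L × ℚ)) :=
  {i | Sum.elim (fun j => AlgebraicOverE (k j)) (Sum.elim (fun j => AlgebraicOverE (y j))
    fun p => p.2 ∈ P ∧ AlgebraicOverE (Lambda p.1 p.2)) i}

/-- the multiplicative group generated by `b_1, …, b_m` -/
def group {m : ℕ} (b : Fin m → ℚ) : Set ℚ := {x | ∃ n : Fin m → ℤ, x = ∏ i, b i ^ n i}

/-- the numbers `γ, log b_1, …, log b_m` -/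
noncomputable def logs {m : ℕ} (b : Fin m → ℚ) : Fin (m + 1) → ℝ :=
  Fin.cons Real.eulerMascheroniConstant fun i => Real.log (b i)

open Pool.Agent.R352.E (clF mem_clF subset_clF clF_mono clF_le of_pow zt con3)

theorem zetas_eq (c : ℕ) : zetas c = con3 c := rfl

theorem Lambda_eq (l : ℕ) (x : ℚ) : Lambda l x = Pool.Agent.R352.T.ga (1 / 2) l ((x / 4 : ℚ) : ℝ) := by
  rw [Lambda, Pool.Agent.R352.T.ga]
  refine MeasureTheory.setIntegral_congr_fun measurableSet_Ioi fun s _ => ?_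
  have h1 : 4 * s / (x : ℝ) = s / ((x / 4 : ℚ) : ℝ) := by
    push_cast
    rcases eq_or_ne (x : ℝ) 0 with h | h
    · simp [h]
    · field_simp
  have h2 : (-1 / 2 : ℝ) = 1 / 2 - 1 := by norm_num
  rw [h1, h2]
  ring

section

variable {κ : Type} {r : ℕ}

/-- the membership needed for a family of constants -/
def Good (k : κ → ℝ) (L : ℕ) : Prop :=
  ∀ T : Set ℝ, range k ⊆ clF T → Real.pi ∈ clF T ∧ ∀ j, 2 ≤ j → j < L → zt j ∈ clF T

theorem mem_all {k : κ → ℝ} {L : ℕ} (hk : Good k L) (y : Fin r → ℝ) {x : ℚ} (hx : 0 < x)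
    (h0 : AlgebraicOverEAnd y (Real.eulerMascheroniConstant + Real.log x)) (l : Fin L) (T : Set ℝ)
    (hT : {Real.exp 1} ∪ range (Sum.elim k y) ⊆ clF T) (hR : Lambda l x ∈ clF T) :
    Pool.Agent.R352.T.EA (1 / 2) (l + 1) ((x / 4 : ℚ) : ℝ) ∈ clF T := by
  have hkk := hk T (by
    rintro _ ⟨i, rfl⟩
    exact hT (Or.inr ⟨Sum.inl i, rfl⟩))
  refine Pool.Agent.R352.T.EA_half_mem (by positivity) (hT (Or.inl rfl)) hkk.1 ?_ l (fun j h2 h3 => ?_) ?_
  · have e : (4 : ℝ) * ((x / 4 : ℚ) : ℝ) = x := by push_cast; ring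
    rw [e]
    refine clF_le ?_ (mem_clF.2 h0)
    rintro z (hz | ⟨i, rfl⟩)
    · exact hT (Or.inl hz)
    · exact hT (Or.inr ⟨Sum.inr i, rfl⟩)
  · exact hkk.2 j h2 (lt_of_le_of_lt h3 l.2)
  · rw [← Lambda_eq]
    exact hR

theorem AI_sub {P : Type*} {L : ℕ} (f : P → Fin L × ℚ) (hf : Function.Injective f) (hpos : ∀ p, 0 < (f p).2) :
    AlgebraicIndependent ℚ (fun o : Option P => o.elim (Real.exp 1)
      (fun p => Pool.Agent.R352.T.EA (1 / 2) ((f p).1 + 1) (((f p).2 / 4 : ℚ) : ℝ))) :=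
  Pool.Agent.R352.T.AI_half (fun p => (((f p).1 : ℕ), (f p).2 / 4)) (by
    intro p p' h
    simp only [Prod.mk.injEq] at h
    refine hf (Prod.ext (Fin.ext h.1) ?_)
    linarith [h.2]) (fun p => by have := hpos p; positivity)

theorem main [Fintype κ] (k : κ → ℝ) {L : ℕ} (hk : Good k L) (y : Fin r → ℝ) (P : Set ℚ)
    (hP : ∀ x ∈ P, 0 < x ∧ AlgebraicOverEAnd y (Real.eulerMascheroniConstant + Real.log x)) :
    (algebraicNames k y L P).encard ≤ ((Fintype.card κ + r : ℕ) : ℕ∞) := by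
  let Q : Type := {p : Fin L × ℚ // p.2 ∈ P}
  have hAI := AI_sub (P := Q) Subtype.val Subtype.val_injective (fun p => (hP _ p.2).1)
  have h := Pool.Agent.R352.T.count_fin hAI (R := fun p : Q => Lambda p.1.1 p.1.2) (Sum.elim k y)
    (fun p T hT hR => mem_all hk y (hP _ p.2).1 (hP _ p.2).2 p.1.1 T hT hR)
  rw [Fintype.card_sum, Fintype.card_fin] at h
  let g : (κ ⊕ Fin r) ⊕ Q → κ ⊕ Fin r ⊕ (Fin L × ℚ) := fun i => (Equiv.sumAssoc κ (Fin r) (Fin L × ℚ)) (Sum.map id Subtype.val i)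
  have hg : Function.Injective g :=
    (Equiv.sumAssoc κ (Fin r) (Fin L × ℚ)).injective.comp (Function.Injective.sumMap Function.injective_id Subtype.val_injective)
  have hsub : algebraicNames k y L P ⊆ g '' {i | Sum.elim (Sum.elim k y) (fun p : Q => Lambda p.1.1 p.1.2) i ∈ clF {Real.exp 1}} := by
    intro i hi
    rcases i with i | i | p
    · exact ⟨Sum.inl (Sum.inl i), mem_clF.2 hi, rfl⟩
    · exact ⟨Sum.inl (Sum.inr i), mem_clF.2 hi, rfl⟩
    · exact ⟨Sum.inr ⟨p, hi.1⟩, mem_clF.2 hi.2, rfl⟩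
  calc (algebraicNames k y L P).encard ≤ _ := encard_le_encard hsub
    _ = _ := hg.encard_image _
    _ ≤ _ := h

theorem main_trdeg [Fintype κ] (k : κ → ℝ) {L : ℕ} (hk : Good k L) (y : Fin r → ℝ) (P : Set ℚ)
    (hP : ∀ x ∈ P, 0 < x ∧ AlgebraicOverEAnd y (Real.eulerMascheroniConstant + Real.log x))
    (S : Finset (Fin L × ℚ)) (hS : ∀ p ∈ S, p.2 ∈ P) :
    ((S.card + 1 : ℕ) : Cardinal) ≤ Algebra.trdeg ℚ (IntermediateField.adjoin ℚ
      ({Real.exp 1} ∪ range y ∪ range k ∪ (fun p : Fin L × ℚ => Lambda p.1 p.2) '' (S : Set _))) := by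
  classical
  have hAI := AI_sub (P := S) Subtype.val Subtype.val_injective (fun p => (hP _ (hS _ p.2)).1)
  have h := Pool.Agent.R352.T.trdeg_fin hAI (R := fun p : S => Lambda p.1.1 p.1.2) (Sum.elim k y)
    (fun p T hT hR => mem_all hk y (hP _ (hS _ p.2)).1 (hP _ (hS _ p.2)).2 p.1.1 T hT hR) Finset.univ
  have e : (fun p : S => Lambda p.1.1 p.1.2) '' ((Finset.univ : Finset S) : Set S) =
      (fun p : Fin L × ℚ => Lambda p.1 p.2) '' (S : Set (Fin L × ℚ)) := by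
    ext z
    constructor
    · rintro ⟨p, -, rfl⟩
      exact ⟨p.1, p.2, rfl⟩
    · rintro ⟨p, hp, rfl⟩
      exact ⟨⟨p, hp⟩, by simp, rfl⟩
  have e2 : ({Real.exp 1} ∪ range (Sum.elim k y) : Set ℝ) = {Real.exp 1} ∪ range y ∪ range k := by
    rw [Sum.elim_range, union_comm (range k), ← union_assoc]
  rw [e, e2] at h
  simpa using h

end

theorem good_zetas (c : ℕ) : Good (zetas c) (2 * c + 5) := by
  intro T hT
  have h1 : zt 3 ∈ clF T := hT ⟨0, rfl⟩
  have h2 : zt 3 / Real.pi ^ 3 ∈ clF T := hT ⟨1, rfl⟩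
  have hpi : Real.pi ∈ clF T := by
    refine of_pow (n := 3) (by norm_num) ?_
    have h3 : Real.pi ^ 3 = zt 3 / (zt 3 / Real.pi ^ 3) := by
      have := Pool.Agent.R352.E.zt3_pos.ne'
      have := Real.pi_ne_zero
      field_simp
    rw [h3]
    exact (clF T).div_mem h1 h2
  refine ⟨hpi, fun j hj hj' => Pool.Agent.R352.E.zt_all hpi (c + 1) (fun i hi => ?_) j hj (by omega)⟩
  cases i with
  | zero => exact h1
  | succ i =>
    have := hT ⟨Fin.succ (Fin.succ ⟨i, by omega⟩), rfl⟩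
    rw [zetas_eq] at this
    simp only [con3, Fin.cons_succ] at this
    have e : 2 * (i + 1) + 3 = 2 * i + 5 := by ring
    rw [e]
    exact this

theorem good_pi : Good (fun _ : Unit => Real.pi) 3 := by
  intro T hT
  have hpi : Real.pi ∈ clF T := hT ⟨(), rfl⟩
  exact ⟨hpi, fun j hj hj' => Pool.Agent.R352.E.zt_all hpi 0 (fun i hi => absurd hi (Nat.not_lt_zero i)) j hj (by omega)⟩

theorem group_pos {m : ℕ} {b : Fin m → ℚ} (hb : ∀ i, 0 < b i) {x : ℚ} (hx : x ∈ group b) : 0 < x := by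
  obtain ⟨n, rfl⟩ := hx
  exact Finset.prod_pos fun i _ => zpow_pos (hb i) _

theorem group_log {m : ℕ} {b : Fin m → ℚ} (hb : ∀ i, 0 < b i) {x : ℚ} (hx : x ∈ group b) :
    AlgebraicOverEAnd (logs b) (Real.eulerMascheroniConstant + Real.log x) := by
  obtain ⟨n, rfl⟩ := hx
  have h1 : Real.log ((∏ i, b i ^ n i : ℚ) : ℝ) = ∑ i, (n i : ℝ) * Real.log (b i) := by
    push_cast
    rw [Real.log_prod]
    · refine Finset.sum_congr rfl fun i _ => ?_
      rw [Real.log_zpow]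
    · intro i _
      have : (b i : ℝ) ≠ 0 := by exact_mod_cast (hb i).ne'
      exact zpow_ne_zero _ this
  refine mem_clF.1 ?_
  rw [h1]
  have h2 : ∀ i, logs b i ∈ clF ({Real.exp 1} ∪ range (logs b)) := fun i =>
    subset_clF _ (Or.inr ⟨i, rfl⟩)
  refine Subfield.add_mem _ (h2 0) (Subfield.sum_mem _ fun i _ => Subfield.mul_mem _ (intCast_mem _ _) ?_)
  exact h2 i.succ

theorem result :
    -- (1) and (2)
    (∀ (c r : ℕ) (y : Fin r → ℝ) (P : Set ℚ),
      (∀ x ∈ P, 0 < x ∧ AlgebraicOverEAnd y (Real.eulerMascheroniConstant + Real.log x)) →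
      (∀ S : Finset (Fin (2 * c + 5) × ℚ), (∀ p ∈ S, p.2 ∈ P) →
        ((S.card + 1 : ℕ) : Cardinal) ≤ Algebra.trdeg ℚ (IntermediateField.adjoin ℚ
          ({Real.exp 1} ∪ range y ∪ range (zetas c) ∪
            (fun p : Fin (2 * c + 5) × ℚ => Lambda p.1 p.2) '' (S : Set (Fin (2 * c + 5) × ℚ))))) ∧
      (algebraicNames (zetas c) y (2 * c + 5) P).encard ≤ ((r + c + 2 : ℕ) : ℕ∞)) ∧
    -- (3)
    (∀ (c m : ℕ) (b : Fin m → ℚ), (∀ i, 0 < b i) →
      (algebraicNames (zetas c) (logs b) (2 * c + 5) (group b)).encard ≤ ((m + c + 3 : ℕ) : ℕ∞)) ∧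
    -- (4)
    (∀ (m : ℕ) (b : Fin m → ℚ), (∀ i, 0 < b i) →
      (algebraicNames (fun _ : Unit => Real.pi) (logs b) 3 (group b)).encard ≤ ((m + 2 : ℕ) : ℕ∞)) := by
  refine ⟨fun c r y P hP => ⟨main_trdeg _ (good_zetas c) y P hP, ?_⟩, fun c m b hb => ?_, fun m b hb => ?_⟩
  · refine (main _ (good_zetas c) y P hP).trans_eq ?_
    rw [Fintype.card_fin]
    congr 1
    ring
  · refine (main _ (good_zetas c) (logs b) (group b) fun x hx => ⟨group_pos hb hx, group_log hb hx⟩).trans_eq ?_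
    rw [Fintype.card_fin]
    congr 1
    ring
  · refine (main _ good_pi (logs b) (group b) fun x hx => ⟨group_pos hb hx, group_log hb hx⟩).trans_eq ?_
    rw [Fintype.card_unit]
    congr 1
    ring

end Pool.Agent.Results.MP_e48a95_nt.HalfGompertzNumbers
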